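import Pool.Agent.L0h58.HZ.Core
import Pool.Agent.L0h58.HN.All

/-!
# The complement and the symmetric difference
-/

set_option autoImplicit false

namespace Pool.Agent.L0h58.HZ

open Finset Pool.Agent.L0h32.LT Pool.Agent.L0h32.LT2 Pool.Agent.L0h58.HN Pool.Agent.L0h58.HM
  Pool.Agent.L0h58.HX

theorem two_mul_le_pow (m : ℕ) (hm : 1 ≤ m) : 2 * m ≤ 2 ^ m := by
  induction m, hm using Nat.le_induction with
  | base => norm_num
  | succ m hm ih =>
    rw [pow_succ]
    omega

/-- The sizes. -/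
theorem size_le {A k n T B G : ℕ} (hk : 1 ≤ k) (hn : 2 ^ ((2 * A + 6) * k ^ 3) ≤ n)
    (hT : T ≤ k * n) (hB : (B : ℝ) ≤ 2 ^ ((n : ℝ) / 2 ^ ((2 * A + 6) * k ^ 3)))
    (hG : (G : ℝ) ≤ (n : ℝ) / 2 ^ ((2 * A + 6) * k ^ 3)) :
    (((G + 1) * B * (T + 1) : ℕ) : ℝ) ≤ 2 ^ ((n : ℝ) / 2 ^ (A * k ^ 3)) ∧
      (2 : ℝ) ^ (-((n : ℝ) / 2 ^ (A * k ^ 3))) ≤ (1 / 2) ^ G := by
  obtain ⟨z, hz⟩ : ∃ z : ℝ, z = (n : ℝ) / 2 ^ ((2 * A + 6) * k ^ 3) := ⟨_, rfl⟩
  have hK : (0 : ℝ) < 2 ^ ((2 * A + 6) * k ^ 3) := by positivity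
  have hz1 : 1 ≤ z := by
    rw [hz, le_div_iff₀ hK, one_mul]
    exact_mod_cast hn
  have hnz : (n : ℝ) = z * 2 ^ ((2 * A + 6) * k ^ 3) := by
    rw [hz, div_mul_cancel₀ _ hK.ne']
  have hk3 : 1 ≤ k ^ 3 := Nat.one_le_pow _ _ hk
  have hkk : k ≤ k ^ 3 := Nat.le_self_pow (by norm_num) k
  have hnK : (n : ℝ) / 2 ^ (A * k ^ 3) = z * 2 ^ ((A + 6) * k ^ 3) := by
    rw [hnz, div_eq_iff (by positivity), mul_assoc, ← pow_add]
    congr 2
    ring
  rw [← hz] at hB hG
  rw [hnK]
  have hm : 3 + (2 * A + 8) * k ^ 3 ≤ 2 ^ ((A + 6) * k ^ 3) := by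
    refine le_trans ?_ (two_mul_le_pow _ ?_)
    · have : 2 * ((A + 6) * k ^ 3) = (2 * A + 8) * k ^ 3 + 4 * k ^ 3 := by ring
      omega
    · exact Nat.mul_pos (by omega) hk3
  have hmr : 3 + (((2 * A + 8) * k ^ 3 : ℕ) : ℝ) ≤ 2 ^ ((A + 6) * k ^ 3) := by exact_mod_cast hm
  have hz0 : 0 ≤ z := by linarith
  have hG1 : (G : ℝ) + 1 ≤ 2 ^ z := by
    have h1 := one_add_mul_self_le_rpow_one_add (s := 1) (by norm_num) hz1
    have h2 : (1 : ℝ) + 1 = 2 := by norm_num
    rw [h2] at h1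
    linarith
  have hz2 : z ≤ 2 ^ z := by
    have h1 := one_add_mul_self_le_rpow_one_add (s := 1) (by norm_num) hz1
    have h2 : (1 : ℝ) + 1 = 2 := by norm_num
    rw [h2] at h1
    linarith
  have hT1 : (T : ℝ) + 1 ≤ 2 ^ (((2 * A + 8) * k ^ 3 : ℕ) : ℝ) * 2 ^ z := by
    have hn1 : 1 ≤ n := le_trans Nat.one_le_two_pow hn
    have h1 : T + 1 ≤ 2 * k * n := by
      have : 1 ≤ k * n := Nat.mul_pos hk hn1
      have h3 : 2 * k * n = k * n + k * n := by ring
      omega
    have h2 : 2 * k ≤ 2 ^ (2 * k ^ 3) :=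
      (two_mul_le_pow k hk).trans (Nat.pow_le_pow_right (by norm_num) (by omega))
    have h1r : (T : ℝ) + 1 ≤ 2 * k * n := by exact_mod_cast h1
    have h2r : (2 : ℝ) * k ≤ 2 ^ (2 * k ^ 3) := by exact_mod_cast h2
    calc (T : ℝ) + 1 ≤ 2 * k * n := h1r
      _ = 2 * k * 2 ^ ((2 * A + 6) * k ^ 3) * z := by
        rw [hnz]
        ring
      _ ≤ 2 ^ (2 * k ^ 3) * 2 ^ ((2 * A + 6) * k ^ 3) * z := by
        apply mul_le_mul_of_nonneg_right _ hz0
        exact mul_le_mul_of_nonneg_right h2r (by positivity)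
      _ = 2 ^ (((2 * A + 8) * k ^ 3 : ℕ) : ℝ) * z := by
        rw [← pow_add, Real.rpow_natCast]
        congr 2
        ring
      _ ≤ 2 ^ (((2 * A + 8) * k ^ 3 : ℕ) : ℝ) * 2 ^ z :=
        mul_le_mul_of_nonneg_left hz2 (by positivity)
  constructor
  · push_cast
    calc ((G : ℝ) + 1) * B * (T + 1) ≤ 2 ^ z * 2 ^ z * (2 ^ (((2 * A + 8) * k ^ 3 : ℕ) : ℝ) * 2 ^ z) := by
          apply mul_le_mul _ hT1 (by positivity) (by positivity)
          exact mul_le_mul hG1 hB (by positivity) (by positivity)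
      _ = 2 ^ (z + z + ((((2 * A + 8) * k ^ 3 : ℕ) : ℝ) + z)) := by
        rw [Real.rpow_add (by norm_num), Real.rpow_add (by norm_num), Real.rpow_add (by norm_num)]
      _ ≤ 2 ^ (z * 2 ^ ((A + 6) * k ^ 3)) := by
        apply Real.rpow_le_rpow_of_exponent_le (by norm_num)
        have h1 : (((2 * A + 8) * k ^ 3 : ℕ) : ℝ) ≤ z * (((2 * A + 8) * k ^ 3 : ℕ) : ℝ) :=
          le_mul_of_one_le_left (Nat.cast_nonneg _) hz1
        have h2 := mul_le_mul_of_nonneg_left hmr hz0
        have h3 : z * (3 + (((2 * A + 8) * k ^ 3 : ℕ) : ℝ)) =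
          3 * z + z * (((2 * A + 8) * k ^ 3 : ℕ) : ℝ) := by ring
        linarith
  · have h1 : ((1 : ℝ) / 2) ^ G = 2 ^ (-(G : ℝ)) := by
      rw [Real.rpow_neg (by norm_num), Real.rpow_natCast, one_div, inv_pow]
    rw [h1]
    apply Real.rpow_le_rpow_of_exponent_le (by norm_num)
    have h2 : z ≤ z * 2 ^ ((A + 6) * k ^ 3) :=
      le_mul_of_one_le_right hz0 (one_le_pow₀ (by norm_num))
    linarith

/-- Constant functions. -/
theorem guess_const (n T : ℕ) (i₀ : Fin n) (b : Bool) : Guess n T 1 0 (fun _ => b) := by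
  classical
  refine ⟨Unit, inferInstance, ⟨(), fun _ => i₀, fun _ _ _ => (), fun _ => some b⟩, by simp,
    fun x => ?_⟩
  unfold NBP.Accepts
  constructor
  · intro h
    have h' : b = true := h
    have key : ∀ (p : ℕ → Prop) (inst : DecidablePred p), (∀ t, ¬ p t) →
        (@Finset.filter ℕ p inst (range T)).card = 0 := by
      intro p inst hp
      rw [Finset.card_eq_zero, Finset.filter_eq_empty_iff]
      intro t _
      exact hp t
    refine ⟨fun _ => false, by rw [h'], le_of_eq (key _ _ fun t h1 => ?_)⟩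
    exact h1 (Subsingleton.elim _ _)
  · rintro ⟨_, h, _⟩
    exact Option.some.inj h

/-- The symmetric difference of two copies. -/
def twoCopies (n : ℕ) (f : Inp n → Bool) (y : Inp (n + n)) : Bool :=
  xor (f fun i => y (Fin.castAdd n i)) (f fun i => y (Fin.natAdd n i))

theorem two_restr {n : ℕ} (f : Inp n → Bool) (x z : Inp n) :
    twoCopies n f (fun p => Sum.elim x id
      (Fin.addCases (fun i => Sum.inl i) (fun j => Sum.inr (z j)) p)) = xor (f x) (f z) := by
  unfold twoCopies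
  have e1 : (fun i : Fin n => Sum.elim x id (Fin.addCases (motive := fun _ => Fin n ⊕ Bool)
      (fun i => Sum.inl i) (fun j => Sum.inr (z j)) (Fin.castAdd n i))) = x := by
    funext i
    rw [Fin.addCases_left]
    rfl
  have e2 : (fun i : Fin n => Sum.elim x id (Fin.addCases (motive := fun _ => Fin n ⊕ Bool)
      (fun i => Sum.inl i) (fun j => Sum.inr (z j)) (Fin.natAdd n i))) = z := by
    funext i
    rw [Fin.addCases_right]
    rfl
  rw [e1, e2]

/-- The lower bounds. -/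
theorem lowG : ∃ A : ℕ, ∀ k n T B G : ℕ, 1 ≤ k → 2 ^ (A * k ^ 3) ≤ n → T ≤ k * n →
    (B : ℝ) ≤ 2 ^ ((n : ℝ) / 2 ^ (A * k ^ 3)) → (G : ℝ) ≤ (n : ℝ) / 2 ^ (A * k ^ 3) →
      ¬ Guess n T B G (fun x => !hard n x) := by
  obtain ⟨A, hA⟩ := Pool.Agent.L0h58.HX.lower
  refine ⟨2 * A + 6, fun k n T B G hk hn hT hB hG h => ?_⟩
  obtain ⟨h1, h2⟩ := size_le hk hn hT hB hG
  refine noGuess (hA k n hk (le_trans ?_ hn)) hT h h1 h2
  exact Nat.pow_le_pow_right (by norm_num) (Nat.mul_le_mul_right _ (by omega))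

/-- Both lower bounds with one constant. -/
theorem lowB : ∃ A : ℕ, ∀ k n : ℕ, 1 ≤ k → 2 ^ (A * k ^ 3) ≤ n →
    HardD n (k * n) (2 ^ ((n : ℝ) / 2 ^ (A * k ^ 3))) (2 ^ (-((n : ℝ) / 2 ^ (A * k ^ 3))))
      (hard n) ∧
    ∀ T B G : ℕ, T ≤ k * n → (B : ℝ) ≤ 2 ^ ((n : ℝ) / 2 ^ (A * k ^ 3)) →
      (G : ℝ) ≤ (n : ℝ) / 2 ^ (A * k ^ 3) → ¬ Guess n T B G (fun x => !hard n x) := by
  obtain ⟨A, hA⟩ := Pool.Agent.L0h58.HX.lower
  refine ⟨2 * A + 6, fun k n hk hn => ⟨?_, fun T B G hT hB hG h => ?_⟩⟩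
  · have hle : (n : ℝ) / 2 ^ ((2 * A + 6) * k ^ 3) ≤ n / 2 ^ (A * k ^ 3) := by
      apply div_le_div_of_nonneg_left (Nat.cast_nonneg _) (by positivity)
      exact pow_le_pow_right₀ (by norm_num) (Nat.mul_le_mul_right _ (by omega))
    have h1 := hA k n hk (le_trans (Nat.pow_le_pow_right (by norm_num)
      (Nat.mul_le_mul_right _ (by omega))) hn)
    intro V Ω hV hΩ hne start var next out g1 g2
    refine lt_of_le_of_lt (Real.rpow_le_rpow_of_exponent_le (by norm_num) hle)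
      (h1 V Ω hV hΩ hne start var next out g1 fun x hx => le_trans ?_ (g2 x hx))
    apply mul_le_mul_of_nonneg_right _ (Nat.cast_nonneg _)
    exact Real.rpow_le_rpow_of_exponent_le (by norm_num) (neg_le_neg hle)
  · obtain ⟨h1, h2⟩ := size_le hk hn hT hB hG
    refine noGuess (hA k n hk (le_trans ?_ hn)) hT h h1 h2
    exact Nat.pow_le_pow_right (by norm_num) (Nat.mul_le_mul_right _ (by omega))

theorem lowH : ∃ A : ℕ, ∀ k n T B G : ℕ, 1 ≤ k → 2 ^ (A * k ^ 3) ≤ n → T ≤ k * (n + n) →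
    (B : ℝ) ≤ 2 ^ ((n : ℝ) / 2 ^ (A * k ^ 3)) → (G : ℝ) ≤ (n : ℝ) / 2 ^ (A * k ^ 3) →
      ¬ Guess n T B G (fun x => !hard n x) ∧ ¬ Guess (n + n) T B G (twoCopies n (hard n)) ∧
        ¬ Guess (n + n) T B G (fun y => !twoCopies n (hard n) y) := by
  obtain ⟨A, hA⟩ := lowG
  refine ⟨8 * A, fun k n T B G hk hn hT hB hG => ?_⟩
  have hkk : 8 * A * k ^ 3 = A * (2 * k) ^ 3 := by ring
  rw [hkk] at hn hB hG
  have hn1 : 0 < n := lt_of_lt_of_le (by positivity) hn
  have hT2 : T ≤ 2 * k * n := hT.trans (le_of_eq (by ring))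
  have h1 := hA (2 * k) n T B G (by omega) hn hT2 hB hG
  have hc : ¬ Guess n 0 1 0 (fun x => !hard n x) := hA (2 * k) n 0 1 0 (by omega) hn
    (Nat.zero_le _) (by
      push_cast
      exact Real.one_le_rpow (by norm_num) (by positivity)) (by push_cast; positivity)
  have hz : ∀ b : Bool, ∃ z, hard n z = b := by
    intro b
    by_contra hcon
    push Not at hcon
    apply hc
    have : (fun x => !hard n x) = fun _ => b := by
      funext x
      have := hcon x
      cases h : hard n x <;> cases b <;> simp_all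
    rw [this]
    exact guess_const n 0 ⟨0, hn1⟩ b
  obtain ⟨z₀, hz₀⟩ := hz false
  obtain ⟨z₁, hz₁⟩ := hz true
  refine ⟨h1, fun h => h1 ?_, fun h => h1 ?_⟩
  · have h2 := guess_restr (n := n) ⟨0, hn1⟩
      (Fin.addCases (fun i => Sum.inl i) fun j => Sum.inr (z₁ j)) h
    convert h2 using 1
    funext x
    rw [two_restr, hz₁]
    simp
  · have h2 := guess_restr (n := n) ⟨0, hn1⟩
      (Fin.addCases (fun i => Sum.inl i) fun j => Sum.inr (z₀ j)) h
    convert h2 using 1
    funext x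
    rw [two_restr, hz₀]
    simp

/-- Reading an input of `2 n` bits. -/
theorem foldl_two {n : ℕ} {V W : Type} (f : Fin n → V → V) (g : Fin n → W → W) (v : V × W) :
    (List.finRange (n + n)).foldl (fun (u : V × W) i =>
      (Fin.addCases (fun j => (f j u.1, u.2)) (fun j => (u.1, g j u.2)) i : V × W)) v =
      ((List.finRange n).foldl (fun u i => f i u) v.1,
        (List.finRange n).foldl (fun u i => g i u) v.2) := by
  have h1 : List.finRange (n + n) = (List.finRange n).map (Fin.castAdd n) ++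
      (List.finRange n).map (Fin.natAdd n) := by
    rw [← List.ofFn_id, List.ofFn_add, ← List.ofFn_id, List.map_ofFn, List.map_ofFn]
    rfl
  have h2 : ∀ (l : List (Fin n)) (u : V × W), (l.map (Fin.castAdd n)).foldl (fun (u : V × W) i =>
      (Fin.addCases (fun j => (f j u.1, u.2)) (fun j => (u.1, g j u.2)) i : V × W)) u =
      (l.foldl (fun u i => f i u) u.1, u.2) := by
    intro l
    induction l with
    | nil => intro u; rfl
    | cons a l ih =>
      intro u
      rw [List.map_cons, List.foldl_cons, ih, Fin.addCases_left]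
      rfl
  have h3 : ∀ (l : List (Fin n)) (u : V × W), (l.map (Fin.natAdd n)).foldl (fun (u : V × W) i =>
      (Fin.addCases (fun j => (f j u.1, u.2)) (fun j => (u.1, g j u.2)) i : V × W)) u =
      (u.1, l.foldl (fun u i => g i u) u.2) := by
    intro l
    induction l with
    | nil => intro u; rfl
    | cons a l ih =>
      intro u
      rw [List.map_cons, List.foldl_cons, ih, Fin.addCases_right]
      rfl
  rw [h1, List.foldl_append, h2, h3]

theorem app_left {g : ℕ} (w1 w2 : Fin g → Bool) :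
    (fun i => Fin.append w1 w2 (Fin.castAdd g i)) = w1 := by
  funext i
  exact Fin.append_left w1 w2 i

theorem app_right {g : ℕ} (w1 w2 : Fin g → Bool) :
    (fun i => Fin.append w1 w2 (Fin.natAdd g i)) = w2 := by
  funext i
  exact Fin.append_right w1 w2 i

/-- Both, or one of two copies. -/
theorem nonP_two {n g B : ℕ} {f : Inp n → Bool} (h : NonP n g B f) :
    NonP (n + n) (g + g) (B * B) (fun y => (f fun i => y (Fin.castAdd n i)) &&
      (f fun i => y (Fin.natAdd n i))) ∧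
    NonP (n + n) (g + g) (B * B) (fun y => (f fun i => y (Fin.castAdd n i)) ||
      (f fun i => y (Fin.natAdd n i))) := by
  obtain ⟨V, hV, start, next, acc, hcard, hf⟩ := h
  have hc : Nat.card (V × V) ≤ B * B := by
    rw [Nat.card_prod]
    exact Nat.mul_le_mul hcard hcard
  have hrun : ∀ (y : Inp (n + n)) (v : V × V),
      (List.finRange (n + n)).foldl (fun v i => (Fin.addCases (fun j => (next j v.1 (y i), v.2))
        (fun j => (v.1, next j v.2 (y i))) i : V × V)) v =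
      ((List.finRange n).foldl (fun v i => next i v (y (Fin.castAdd n i))) v.1,
        (List.finRange n).foldl (fun v i => next i v (y (Fin.natAdd n i))) v.2) := by
    intro y v
    rw [← foldl_two (fun i v => next i v (y (Fin.castAdd n i)))
      (fun i v => next i v (y (Fin.natAdd n i)))]
    congr 1
    funext u i
    refine Fin.addCases (fun j => ?_) (fun j => ?_) i
    · rw [Fin.addCases_left, Fin.addCases_left]
    · rw [Fin.addCases_right, Fin.addCases_right]
  constructor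
  · refine ⟨V × V, inferInstance, fun w => (start fun i => w (Fin.castAdd g i),
      start fun i => w (Fin.natAdd g i)), fun i v b => Fin.addCases
        (fun j => (next j v.1 b, v.2)) (fun j => (v.1, next j v.2 b)) i,
      fun v => acc v.1 ∧ acc v.2, hc, fun y => ?_⟩
    rw [Bool.and_eq_true, hf, hf]
    simp only [hrun]
    constructor
    · rintro ⟨⟨w1, h1⟩, ⟨w2, h2⟩⟩
      refine ⟨Fin.append w1 w2, ?_, ?_⟩
      · rw [app_left]
        exact h1
      · rw [app_right]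
        exact h2
    · rintro ⟨w, h1, h2⟩
      exact ⟨⟨_, h1⟩, ⟨_, h2⟩⟩
  · refine ⟨V × V, inferInstance, fun w => (start fun i => w (Fin.castAdd g i),
      start fun i => w (Fin.natAdd g i)), fun i v b => Fin.addCases
        (fun j => (next j v.1 b, v.2)) (fun j => (v.1, next j v.2 b)) i,
      fun v => acc v.1 ∨ acc v.2, hc, fun y => ?_⟩
    rw [Bool.or_eq_true, hf, hf]
    simp only [hrun]
    constructor
    · rintro (⟨w1, h1⟩ | ⟨w2, h2⟩)
      · refine ⟨Fin.append w1 w1, Or.inl ?_⟩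
        rw [app_left]
        exact h1
      · refine ⟨Fin.append w2 w2, Or.inr ?_⟩
        rw [app_right]
        exact h2
    · rintro ⟨w, h1 | h2⟩
      · exact Or.inl ⟨_, h1⟩
      · exact Or.inr ⟨_, h2⟩

/-- Coins are guesses. -/
theorem nonP_of_oneP {n ρ B : ℕ} {f : Inp n → Bool} (h : OneP n ρ B f) : NonP n ρ B f := by
  obtain ⟨V, hV, start, next, acc, hcard, hf⟩ := h
  refine ⟨V, hV, start, next, acc, hcard, fun x => ⟨fun hx => ?_, fun hx => ?_⟩⟩
  · have h1 := (hf x).1 hx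
    by_contra hcon
    push Not at hcon
    have h2 : IsEmpty {ω : Fin ρ → Bool // acc ((List.finRange n).foldl
        (fun v i => next i v (x i)) (start ω))} := ⟨fun ω => hcon ω.1 ω.2⟩
    rw [Nat.card_of_isEmpty, mul_zero] at h1
    have h3 : 0 < 2 ^ ρ := by positivity
    omega
  · obtain ⟨ω, hω⟩ := hx
    by_contra hcon
    exact (hf x).2 (by simpa using hcon) ω hω

end Pool.Agent.L0h58.HZ
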