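import Pool.Agent.L0h58.HX.Final
import Pool.Agent.L0h58.HM.Gue

/-!
# Nondeterministic programs for the complement of a hard function
-/

set_option autoImplicit false

namespace Pool.Agent.L0h58.HZ

open Finset Pool.Agent.L0h32.LT Pool.Agent.L0h32.LT2 Pool.Agent.L0h58.HN Pool.Agent.L0h58.HM
  Pool.Agent.L0h13.HN

section clock

variable {n g : ℕ} {V : Type} (Q : BP n V) (T : ℕ)

/-- The next node of the program with a clock. -/
def cnext (v : V × Fin (T + 1)) (b : Bool) : V × Fin (T + 1) :=
  (if (Q.out v.1).isSome then v.1 else Q.next v.1 b,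
    if h : (v.2 : ℕ) < T then ⟨v.2 + 1, by omega⟩ else v.2)

open Classical in
/-- The output of the program with a clock. -/
noncomputable def cout (v : V × Fin (T + 1)) : Option Bool :=
  if (v.2 : ℕ) = T then (if Q.out v.1 = some true then some false else some true) else none

theorem clock_run (x : Inp n) : ∀ t ≤ T,
    (stp (fun v : V × Fin (T + 1) => Q.var v.1) (cnext Q T) (cout Q T) x)^[t]
      (Q.start, ⟨0, Nat.succ_pos T⟩) = ((Q.step x)^[t] Q.start, Fin.ofNat (T + 1) t) := by
  intro t
  induction t with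
  | zero =>
    intro _
    simp
  | succ t ih =>
    intro ht
    have hv : ((Fin.ofNat (T + 1) t : Fin (T + 1)) : ℕ) = t := by
      simp [Fin.ofNat]
      omega
    rw [Function.iterate_succ_apply', ih (by omega), Function.iterate_succ_apply']
    unfold stp
    have hc : cout Q T ((Q.step x)^[t] Q.start, Fin.ofNat (T + 1) t) = none := by
      unfold cout
      rw [if_neg]
      show ¬ ((Fin.ofNat (T + 1) t : Fin (T + 1)) : ℕ) = T
      omega
    rw [hc]
    simp only [Option.isSome_none, Bool.false_eq_true, if_false]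
    unfold cnext
    refine Prod.ext ?_ ?_
    · show (if (Q.out ((Q.step x)^[t] Q.start)).isSome then _ else _) = Q.step x _
      rfl
    · ext
      show ((if h : ((Fin.ofNat (T + 1) t : Fin (T + 1)) : ℕ) < T then
        (⟨(Fin.ofNat (T + 1) t : Fin (T + 1)) + 1, by omega⟩ : Fin (T + 1)) else _ : Fin (T + 1)) : ℕ) = _
      rw [dif_pos (by omega)]
      show ((Fin.ofNat (T + 1) t : Fin (T + 1)) : ℕ) + 1 = (t + 1) % (T + 1)
      rw [hv, Nat.mod_eq_of_lt (by omega)]

theorem clock_out (x : Inp n) (t : ℕ) (hT : T ≤ t) :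
    cout Q T ((stp (fun v : V × Fin (T + 1) => Q.var v.1) (cnext Q T) (cout Q T) x)^[t]
      (Q.start, ⟨0, Nat.succ_pos T⟩)) = some false ↔
      Q.out ((Q.step x)^[T] Q.start) = some true := by
  classical
  obtain ⟨d, rfl⟩ := Nat.exists_eq_add_of_le hT
  have hv : ((Fin.ofNat (T + 1) T : Fin (T + 1)) : ℕ) = T := by
    simp [Fin.ofNat]
  have h0 : ∀ d, (stp (fun v : V × Fin (T + 1) => Q.var v.1) (cnext Q T) (cout Q T) x)^[T + d]
      (Q.start, ⟨0, Nat.succ_pos T⟩) = ((Q.step x)^[T] Q.start, Fin.ofNat (T + 1) T) := by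
    intro d
    induction d with
    | zero => exact clock_run Q T x T le_rfl
    | succ d ih =>
      rw [← Nat.add_assoc, Function.iterate_succ_apply', ih]
      unfold stp
      rw [if_pos]
      unfold cout
      rw [if_pos hv]
      split_ifs <;> rfl
  rw [h0]
  unfold cout
  rw [if_pos hv]
  split_ifs with h
  · simp [h]
  · simp [h]

theorem clock_none (x : Inp n) (t : ℕ) (hT : t < T) :
    cout Q T ((stp (fun v : V × Fin (T + 1) => Q.var v.1) (cnext Q T) (cout Q T) x)^[t]
      (Q.start, ⟨0, Nat.succ_pos T⟩)) = none := by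
  have hv : ((Fin.ofNat (T + 1) t : Fin (T + 1)) : ℕ) = t := by
    simp [Fin.ofNat]
    omega
  rw [clock_run Q T x t hT.le]
  unfold cout
  rw [if_neg]
  show ¬ ((Fin.ofNat (T + 1) t : Fin (T + 1)) : ℕ) = T
  omega

end clock

/-- Nondeterministic programs for the complement of a hard function. -/
theorem noGuess {n T T' B G : ℕ} {L ε : ℝ} {f : Inp n → Bool} (hf : HardD n T' L ε f)
    (hT : T ≤ T') (hg : Guess n T B G (fun x => !f x))
    (hL : (((G + 1) * B * (T + 1) : ℕ) : ℝ) ≤ L) (hε : ε ≤ (1 / 2) ^ G) : False := by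
  classical
  obtain ⟨V, hV, P, hcard, hP⟩ := hg
  have h := hf ((V × Fin (G + 1)) × Fin (T + 1)) (Fin G → Bool) inferInstance inferInstance
    inferInstance (fun w => ((det P w).start, ⟨0, Nat.succ_pos T⟩)) (fun w v => (det P w).var v.1)
    (fun w => cnext (det P w) T) (fun w => cout (det P w) T) ?_ ?_
  · have h1 : (Nat.card ((V × Fin (G + 1)) × Fin (T + 1)) : ℝ) ≤ L := by
      refine le_trans ?_ hL
      rw [Nat.card_prod, Nat.card_prod, Nat.card_fin, Nat.card_fin]
      have : Nat.card V * (G + 1) * (T + 1) ≤ (G + 1) * B * (T + 1) := by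
        rw [Nat.mul_comm (G + 1) B]
        exact Nat.mul_le_mul_right _ (Nat.mul_le_mul_right _ hcard)
      exact_mod_cast this
    exact absurd h (not_lt.2 h1)
  · intro x hx ω t hout
    rcases lt_or_ge t T with h1 | h1
    · rw [clock_none (det P ω) T x t h1] at hout
      cases hout
    · have h2 := (clock_out (det P ω) T x t h1).1 hout
      have h3 := (hP x).2 (det_acc P T x ω h2)
      simp [hx] at h3
  · intro x hx
    obtain ⟨w, hw⟩ := acc_det P T x ((hP x).1 (by simp [hx]))
    have h1 : w ∈ (univ.filter fun ω : Fin G → Bool => cout (det P ω) T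
        ((stp (fun v => (det P ω).var v.1) (cnext (det P ω) T) (cout (det P ω) T) x)^[T']
          ((det P ω).start, ⟨0, Nat.succ_pos T⟩)) = some false) :=
      mem_filter.2 ⟨mem_univ _, (clock_out (det P w) T x T' hT).2 hw⟩
    have h2 := Finset.card_pos.2 ⟨w, h1⟩
    have h3 : (Fintype.card (Fin G → Bool) : ℝ) = 2 ^ G := by
      rw [Fintype.card_fun, Fintype.card_bool, Fintype.card_fin]
      push_cast
      rfl
    rw [h3]
    have h4 : ε * 2 ^ G ≤ 1 := by
      calc ε * 2 ^ G ≤ (1 / 2) ^ G * 2 ^ G := mul_le_mul_of_nonneg_right hε (by positivity)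
        _ = 1 := by rw [← mul_pow]; norm_num
    refine h4.trans ?_
    exact_mod_cast h2

/-- Restrictions of nondeterministic programs. -/
theorem guess_restr {M n T B G : ℕ} {F : Inp M → Bool} (i₀ : Fin n) (e : Fin M → Fin n ⊕ Bool)
    (h : Guess M T B G F) : Guess n T B G (fun x => F fun p => Sum.elim x id (e p)) := by
  classical
  obtain ⟨V, hV, P, hcard, hP⟩ := h
  refine ⟨V, hV, ⟨P.start, fun v => Sum.elim id (fun _ => i₀) (e (P.var v)),
    fun v b c => P.next v (Sum.elim (fun _ => b) id (e (P.var v))) c, P.out⟩, hcard, fun x => ?_⟩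
  rw [hP]
  obtain ⟨Q, hQ⟩ : ∃ Q : NBP n V, Q = ⟨P.start, fun v => Sum.elim id (fun _ => i₀) (e (P.var v)),
    fun v b c => P.next v (Sum.elim (fun _ => b) id (e (P.var v))) c, P.out⟩ := ⟨_, rfl⟩
  rw [← hQ]
  have hstep : ∀ v c, P.step (fun p => Sum.elim x id (e p)) v c = Q.step x v c := by
    intro v c
    rw [hQ]
    unfold NBP.step
    dsimp only
    rcases he : e (P.var v) with i | b
    · simp
    · simp
  have hrun : ∀ (γ : ℕ → Bool) t, P.run (fun p => Sum.elim x id (e p)) γ t = Q.run x γ t := by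
    intro γ t
    induction t with
    | zero =>
      rw [hQ]
      rfl
    | succ t ih =>
      show P.step _ _ _ = Q.step _ _ _
      rw [hstep, ih]
  have hout : P.out = Q.out := by rw [hQ]
  unfold NBP.Accepts
  simp only [hrun, hstep, hout]

end Pool.Agent.L0h58.HZ
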